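import Pool.Agent.Helper2.EG.Stmts

set_option autoImplicit false

/-! # (BAD) at most three quarters of the residues are bad -/

namespace Pool.Agent.Helper2.EG

open Finset

theorem bad_cube {u k : ℕ} [Fact u.Prime] (hk : u = 3 * k + 2) (z : ZMod u) :
    (z ^ (2 * k + 1)) ^ 3 = z := by
  rcases eq_or_ne z 0 with rfl | hz
  · rw [zero_pow (by omega), zero_pow (by norm_num)]
  · have h1 : z ^ (3 * k + 1) = 1 := by
      have h2 := ZMod.pow_card_sub_one_eq_one hz
      rwa [show u - 1 = 3 * k + 1 by omega] at h2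
    calc (z ^ (2 * k + 1)) ^ 3 = (z ^ (3 * k + 1)) ^ 2 * z := by
          rw [← pow_mul, ← pow_mul, ← pow_succ]
          congr 1
          ring
      _ = z := by rw [h1, one_pow, one_mul]

theorem bad_squares (u : ℕ) [Fact u.Prime] :
    u ≤ 2 * ((univ : Finset (ZMod u)).image (fun x => x ^ 2)).card := by
  have h := Finset.card_le_mul_card_image (s := (univ : Finset (ZMod u)))
    (f := fun x => x ^ 2) 2 (by
      intro b hb
      obtain ⟨a, -, rfl⟩ := mem_image.1 hb
      have hsub : (univ : Finset (ZMod u)).filter (fun x => x ^ 2 = a ^ 2) ⊆ {a, -a} := by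
        intro x hx
        have h2 : x ^ 2 = a ^ 2 := (mem_filter.1 hx).2
        rw [mem_insert, mem_singleton]
        exact sq_eq_sq_iff_eq_or_eq_neg.1 h2
      exact (card_le_card hsub).trans card_le_two)
  rwa [card_univ, ZMod.card] at h

theorem st_BAD : ST_BAD := by
  intro u hu h3 h7
  classical
  have : Fact u.Prime := ⟨hu⟩
  obtain ⟨k, hk⟩ : ∃ k, u = 3 * k + 2 := ⟨u / 3, by omega⟩
  have h4 : (4 : ZMod u) ≠ 0 := by
    intro h
    have h5 : ((4 : ℕ) : ZMod u) = 0 := by exact_mod_cast h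
    rw [ZMod.natCast_eq_zero_iff] at h5
    have := Nat.le_of_dvd (by norm_num) h5
    omega
  set G : Finset (ZMod u) := univ.filter (fun x => ∃ s : ZMod u, s ^ 2 = 4 * x ^ 3 + 1) with hG
  have hSG : (univ : Finset (ZMod u)).image (fun x => x ^ 2) ⊆ G.image (fun x => 4 * x ^ 3 + 1) := by
    intro y hy
    obtain ⟨s, -, hs⟩ := mem_image.1 hy
    refine mem_image.2 ⟨((y - 1) / 4) ^ (2 * k + 1), ?_, ?_⟩
    · refine mem_filter.2 ⟨mem_univ _, s, ?_⟩
      rw [bad_cube hk, mul_div_cancel₀ _ h4]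
      have hs' : s ^ 2 = y := hs
      rw [hs']
      ring
    · show 4 * (((y - 1) / 4) ^ (2 * k + 1)) ^ 3 + 1 = y
      rw [bad_cube hk, mul_div_cancel₀ _ h4]
      ring
  have hGc : u ≤ 2 * G.card := by
    have h1 := bad_squares u
    have h2 := (card_le_card hSG).trans card_image_le
    omega
  set A : Finset ℕ := (range u).filter
    (fun ν => ν = 0 ∨ ¬ ∃ s : ℕ, s ^ 2 ≡ 4 * ν ^ 3 + 1 [MOD u]) with hA
  set B : Finset ℕ := (range u).filter
    (fun ν => ¬ (ν = 0 ∨ ¬ ∃ s : ℕ, s ^ 2 ≡ 4 * ν ^ 3 + 1 [MOD u])) with hB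
  have hAB : A.card + B.card = u := by
    rw [hA, hB, Finset.card_filter_add_card_filter_not, card_range]
  have hGB : (G.erase 0).card ≤ B.card := by
    refine Finset.card_le_card_of_injOn (fun x : ZMod u => x.val) ?_ ?_
    · intro x hx
      have hx1 := (mem_erase.1 (mem_coe.1 hx)).1
      have hx2 := (mem_erase.1 (mem_coe.1 hx)).2
      obtain ⟨s, hs⟩ := (mem_filter.1 hx2).2
      refine mem_coe.2 (mem_filter.2 ⟨mem_range.2 (ZMod.val_lt x), ?_⟩)
      intro h
      rcases h with h | h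
      · exact hx1 ((ZMod.val_eq_zero x).1 h)
      · refine h ⟨s.val, ?_⟩
        rw [← ZMod.natCast_eq_natCast_iff]
        push_cast
        rw [ZMod.natCast_zmod_val, ZMod.natCast_zmod_val]
        exact hs
    · intro x _ y _ hxy
      exact ZMod.val_injective u hxy
  have hE : G.card ≤ (G.erase 0).card + 1 := by
    have := Finset.pred_card_le_card_erase (s := G) (a := 0)
    omega
  refine ⟨A, filter_subset _ _, by omega, ?_⟩
  intro n hn
  refine mem_filter.2 ⟨mem_range.2 (Nat.mod_lt _ (by omega)), ?_⟩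
  rcases hn with hn | hn
  · exact Or.inl (Nat.mod_eq_zero_of_dvd hn)
  · refine Or.inr ?_
    rintro ⟨s, hs⟩
    refine hn ⟨s, hs.trans ?_⟩
    exact Nat.ModEq.add_right 1 (Nat.ModEq.mul_left 4 ((Nat.mod_modEq n u).pow 3))

end Pool.Agent.Helper2.EG
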